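import Pool.Agent.R295.SL.Ser
import Pool.Agent.TH900.XM.Meas

/-!
# The numbers `ζ(11), …, ζ(27)` and the field generated by all strongly lacunary numbers

A real number `x` is *strongly lacunary* if it has rational approximations `p_n / d_n`, `d_n ≥ 2`, with
`log d_(n+1) / log d_n → ∞` and `|x - p_n / d_n| ≤ C / d_(n+1)`. Examples are the rational numbers, all the
series `∑ a_n / b ^ (f n)` with bounded integers `a_n` and `f (n + 1) / f n → ∞`, and the numbers for which
`log q_(n+1) / log q_n → ∞` for the denominators `q_n` of their convergents. Nothing is assumed about the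
sequences `(d_n)` of different numbers.

A real number `x` is *approximable at most scales* if for some `h` and every `κ`, for all `k` outside a set
of density zero, there are integers `u` and `1 ≤ v ≤ Q ^ h` with `|x - u / v| ≤ Q ^ (-κ)`, where
`Q = 2 ^ 2 ^ k`. These numbers form a field, which contains all strongly lacunary numbers: only few `k`
are near `log log d_n` for some `n`.

**Theorem.** One of `ζ(11), …, ζ(27)` (odd arguments) is not approximable at most scales; in particular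
one of them is not in the field generated by all strongly lacunary numbers. Since every real number is the
sum of two Liouville numbers (Erdős), a field containing all Liouville numbers contains all reals.

The proof uses the simultaneous measure for these numbers in the starting file `MeasureZeta11To27`.
-/

set_option autoImplicit false

namespace Pool.Agent.Results.MP_4f096c_nt.StronglyLacunaryNumbers

/-- The number of elements of `B` which are smaller than `N`. -/
noncomputable def count (B : Set ℕ) (N : ℕ) : ℕ := Pool.Agent.R295.SL.cnt B N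

/-- Density zero: for every `m` there is `C` with `m * count B N ≤ N + C` for all `N`. -/
def ZeroDensity (B : Set ℕ) : Prop := ∀ m : ℕ, ∃ C : ℕ, ∀ N : ℕ, m * count B N ≤ N + C

/-- There are integers `u` and `1 ≤ v ≤ Q ^ h` with `|x - u / v| ≤ Q ^ (-κ)`. -/
def Near (x : ℝ) (Q h κ : ℕ) : Prop :=
  ∃ (u : ℤ) (v : ℕ), 1 ≤ v ∧ v ≤ Q ^ h ∧ |x - (u : ℝ) / v| ≤ ((Q : ℝ) ^ κ)⁻¹

/-- For some `h` and every `κ` the condition `Near x (2 ^ 2 ^ k) h κ` holds for all `k` outside a set of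
density zero. -/
def ApproximableAtMostScales (x : ℝ) : Prop :=
  ∃ h : ℕ, ∀ κ : ℕ, ZeroDensity {k | ¬ Near x (2 ^ 2 ^ k) h κ}

/-- `x` has rational approximations `p n / d n`, `d n ≥ 2`, with `|x - p n / d n| ≤ C / d (n + 1)` and
`log d (n + 1) / log d n → ∞`. -/
def StronglyLacunary (x : ℝ) : Prop :=
  ∃ (p : ℕ → ℤ) (d : ℕ → ℕ) (C : ℝ), (∀ n, 2 ≤ d n) ∧
    (∀ M : ℕ, ∃ n₀ : ℕ, ∀ n ≥ n₀, d n ^ M ≤ d (n + 1)) ∧
    ∀ n, |x - (p n : ℝ) / d n| ≤ C / d (n + 1)

/-- The value `ζ(j)`, for `j ≥ 2`. -/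
noncomputable def zetaValue (j : ℕ) : ℝ := ∑' n : ℕ, 1 / ((n : ℝ) + 1) ^ j

/-- (1) The numbers which are approximable at most scales form a field, which contains all strongly
lacunary numbers and not all of `ζ(11), …, ζ(27)`. (2) One of `ζ(11), …, ζ(27)` is not in the field
generated by all strongly lacunary numbers. (3) For bounded integers `a n`, every base `b ≥ 2` and every
strictly increasing `f` with `f (n + 1) / f n → ∞` the number `∑ a n / b ^ (f n)` is strongly lacunary.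
(4) For every `h` there is `κ` such that at EVERY scale `Q ≥ 2` one of `ζ(11), …, ζ(27)` has no
approximation with a denominator `≤ Q ^ h` and an error `≤ Q ^ (-κ)`. -/
theorem result :
    (∃ L : IntermediateField ℚ ℝ, (∀ x, x ∈ L ↔ ApproximableAtMostScales x) ∧
      (∀ x, StronglyLacunary x → x ∈ L) ∧
      ∃ j : ℕ, Odd j ∧ 11 ≤ j ∧ j ≤ 27 ∧ zetaValue j ∉ L) ∧
    (∃ j : ℕ, Odd j ∧ 11 ≤ j ∧ j ≤ 27 ∧
      zetaValue j ∉ IntermediateField.adjoin ℚ {x : ℝ | StronglyLacunary x}) ∧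
    (∀ b : ℕ, 2 ≤ b → ∀ (a : ℕ → ℤ) (A : ℕ), (∀ n, |a n| ≤ A) → ∀ f : ℕ → ℕ, StrictMono f →
      (∀ M : ℕ, ∃ n₀ : ℕ, ∀ n ≥ n₀, M * f n ≤ f (n + 1)) →
      StronglyLacunary (∑' n, (a n : ℝ) / (b : ℝ) ^ f n)) ∧
    (∀ h : ℕ, ∃ κ : ℕ, ∀ Q : ℕ, 2 ≤ Q →
      ∃ j : ℕ, Odd j ∧ 11 ≤ j ∧ j ≤ 27 ∧ ¬ Near (zetaValue j) Q h κ) := by
  classical
  obtain ⟨c, hc, hm⟩ := Pool.Agent.TH900.XM.measure
  set S : Finset ℕ := {11, 13, 15, 17, 19, 21, 23, 25, 27} with hS
  have key : ∀ (a : S → ℤ) (b : ℕ), 0 < b →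
      ∃ i : S, c / (b : ℝ) ^ 1628 ≤ |zetaValue (i : ℕ) - a i / b| := by
    intro a b hb
    obtain ⟨j, hj, h1⟩ := hm (fun j => if h : j ∈ S then a ⟨j, h⟩ else 0) b hb
    refine ⟨⟨j, hj⟩, ?_⟩
    rw [dif_pos hj] at h1
    exact h1
  have odds : ∀ i : S, Odd (i : ℕ) ∧ 11 ≤ (i : ℕ) ∧ (i : ℕ) ≤ 27 := by
    rintro ⟨j, hj⟩
    refine ⟨?_, ?_, ?_⟩
    · fin_cases hj <;> decide
    · fin_cases hj <;> decide
    · fin_cases hj <;> decide
  obtain ⟨⟨i, hi⟩, ⟨i', hi'⟩⟩ :=
    Pool.Agent.R295.SL.family (fun i : S => zetaValue (i : ℕ)) c hc 1628 key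
  refine ⟨⟨Pool.Agent.R295.SL.LL Pool.Agent.R295.SL.dens Pool.Agent.R295.SL.two_le_sc,
    fun x => Iff.rfl, fun x hx => Pool.Agent.R295.SL.StronglyLacunary.apr hx,
    i, (odds i).1, (odds i).2.1, (odds i).2.2, hi⟩,
    ⟨i', (odds i').1, (odds i').2.1, (odds i').2.2, hi'⟩, ?_, ?_⟩
  · intro b hb a A ha f hf hgap
    exact Pool.Agent.R295.SL.series b hb a A ha f hf hgap
  · intro h
    obtain ⟨κ, hκ⟩ := Pool.Agent.R295.SL.not_all (fun i : S => zetaValue (i : ℕ)) c hc 1628 key h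
    refine ⟨κ, fun Q hQ => ?_⟩
    obtain ⟨i, hi⟩ := hκ Q hQ
    exact ⟨i, (odds i).1, (odds i).2.1, (odds i).2.2, hi⟩

end Pool.Agent.Results.MP_4f096c_nt.StronglyLacunaryNumbers
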